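import Pool.Agent.helper98.P2F.SpecC

/-!
# p2f: CDGN: the diagonal, completion version (helper85, copy of helper87/P2F/DGN.lean)
-/

set_option autoImplicit false

open Complex Metric Set Filter Topology MeasureTheory
open Pool.Agent.helper98.ILF
open WP (it)
open HY (UD T S hd UN RM)
open PM
open P2 (SS FL FLS CLS FR TL)
open PL (TP LO PZ GJ INR PG DK ht tr DI CY hG cv hv cm BS DQ)
open P2B (VE)

noncomputable section

namespace P2F

theorem CDGN_mono (P : ℂ → ℂ) (η η' r r' : ℝ) (h : STR P η' r') (hη : η' ≤ η) (hr : r ≤ r') : STR P η r := by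
  obtain ⟨v₁, v₂, h1, h2, h3⟩ := h
  exact ⟨v₁, v₂, h1, h2, fun u hu => (h3 u (hu.trans hr)).trans (by linarith)⟩

/-- CDGN: THE DIAGONAL, completion version. -/
theorem CDGN (hMLO : CMLO_stmt) (hFLV : CFLV_stmt) (hDIA : P2A.DIA_stmt) : CDGN_stmt := by
  intro f R hS μ x₀ hTP P hC hx U hU Q hRQ a₀ ha₀
  obtain ⟨a, ha, haa, ha1, hM⟩ := hMLO f R hS μ x₀ hTP P hC hx U hU Q hRQ a₀ ha₀
  refine ⟨a, ha, haa, ha1, ?_⟩
  have hpos : ∀ M : ℕ, (0 : ℝ) < 1 / ((M : ℝ) + 1) := fun M => by positivity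
  have hT : ∀ M : ℕ, ∃ t : ℕ → ℕ, ∀ᶠ k in (U : Filter ℕ), SCT f R P Q a k (t k) (1 / ((M : ℝ) + 1)) := by
    intro M
    classical
    refine ⟨fun k => if h : ∃ t, SCT f R P Q a k t (1 / ((M : ℝ) + 1)) then h.choose else 0, ?_⟩
    filter_upwards [hM _ (hpos M)] with k hk
    rw [dif_pos hk]
    exact hk.choose_spec
  choose t ht using hT
  obtain ⟨s, hs, hQ⟩ := hDIA U hU (fun M j => SCT f R P Q a j (t M j) (1 / ((M : ℝ) + 1)) ∧
    ∀ (n' w : ℕ) (y : ℂ), j ≤ n' → w ≤ t M j → P j y (n' + w) →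
      STR (FC f R n' w y (it f w y)) (1 / ((M : ℝ) + 1)) (1 - 1 / ((M : ℝ) + 1))) (by
    intro M
    have h1 := hFLV f R hS μ x₀ hTP P hC U hU Q hRQ a (1 / ((M : ℝ) + 1)) ha (hpos M) (t M) (ht M)
      (1 / ((M : ℝ) + 1)) (1 - 1 / ((M : ℝ) + 1)) (hpos M) (by linarith [hpos M])
    filter_upwards [ht M, h1] with j h2 h3
    exact ⟨h2, h3⟩)
  have hlim : Tendsto (fun j => 1 / ((s j : ℝ) + 1)) U (𝓝 0) :=
    (tendsto_one_div_add_atTop_nhds_zero_nat (𝕜 := ℝ)).comp hs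
  refine ⟨fun j => 1 / ((s j : ℝ) + 1), fun j => t (s j) j, ?_, hlim, ?_, ?_⟩
  · intro j
    exact hpos (s j)
  · filter_upwards [hQ] with j hj
    exact hj.1
  · intro η r hη hr
    have h2 : (0 : ℝ) < min η (1 - r) := lt_min hη (by linarith)
    filter_upwards [hQ, hlim.eventually (gt_mem_nhds h2)] with j hj hj2 n' w y hn hw hP
    refine CDGN_mono _ _ _ _ _ (hj.2 n' w y hn hw hP) ?_ ?_
    · exact (hj2.trans_le (min_le_left _ _)).le
    · have := (hj2.trans_le (min_le_right _ _)).le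
      linarith

end P2F
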